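import Pool.Agent.Lib_helper9.TB.B3

/-!
# Lie algebras stable under an irreducible group: the identity belongs to them
-/

set_option autoImplicit false

namespace Pool.Agent.TB

open Module LieModule Polynomial

attribute [local instance 100] LieRing.ofAssociativeRing

section irr

variable {k L V : Type*} [Field k] [LieRing L] [LieAlgebra k L] [AddCommGroup V] [Module k V]
  [LieRingModule L V] [LieModule k L V]

/-- A minimal submodule is irreducible. -/
theorem irreducible_of_isAtom (N : LieSubmodule k L V) (hN : IsAtom N) :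
    IsIrreducible k L N := by
  have hnt : Nontrivial N := (LieSubmodule.nontrivial_iff_ne_bot k L V).mpr hN.1
  refine LieModule.IsIrreducible.mk fun P hP => ?_
  have h1 : P.map N.incl ≤ N := by
    intro v hv
    obtain ⟨p, _, rfl⟩ := (LieSubmodule.mem_map v).mp hv
    exact p.2
  have h2 : P.map N.incl ≠ ⊥ := by
    intro h
    apply hP
    rw [LieSubmodule.eq_bot_iff] at h ⊢
    intro p hp
    have := h (N.incl p) (LieSubmodule.mem_map_of_mem hp)
    exact Subtype.ext this
  have h3 : P.map N.incl = N := (hN.le_iff.mp h1).resolve_left h2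
  rw [eq_top_iff]
  intro p _
  have h4 : (p : V) ∈ P.map N.incl := by rw [h3]; exact p.2
  obtain ⟨q, hq, hqp⟩ := (LieSubmodule.mem_map (p : V)).mp h4
  have : q = p := Subtype.ext hqp
  rw [← this]
  exact hq

end irr

section main

variable {k V : Type*} [Field k] [AddCommGroup V] [Module k V] {G : Type*} [Group G]

/-- The translate of a Lie submodule by a group element. -/
def tw (rho : Representation k G V) (S : LieSubalgebra k (Module.End k V))
    (hS : ∀ g, ∀ x ∈ S, rho g * x * rho g⁻¹ ∈ S) (g : G) (N : LieSubmodule k S V) :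
    LieSubmodule k S V :=
  { (N : Submodule k V).map (rho g) with
    lie_mem := by
      intro x v hv
      obtain ⟨w, hw, rfl⟩ := hv
      have hx := hS g⁻¹ x x.2
      refine ⟨(rho g⁻¹ * (x : Module.End k V) * rho g⁻¹⁻¹) w, N.lie_mem (x := ⟨_, hx⟩) hw, ?_⟩
      show rho g (rho g⁻¹ ((x : Module.End k V) (rho g⁻¹⁻¹ w))) = (x : Module.End k V) (rho g w)
      rw [inv_inv, ← Module.End.mul_apply, ← map_mul, mul_inv_cancel, map_one,
        Module.End.one_apply] }

theorem mem_tw (rho : Representation k G V) (S : LieSubalgebra k (Module.End k V))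
    (hS : ∀ g, ∀ x ∈ S, rho g * x * rho g⁻¹ ∈ S) (g : G) (N : LieSubmodule k S V) (v : V) :
    v ∈ tw rho S hS g N ↔ rho g⁻¹ v ∈ N := by
  constructor
  · rintro ⟨w, hw, rfl⟩
    rw [← Module.End.mul_apply, ← map_mul, inv_mul_cancel, map_one, Module.End.one_apply]
    exact hw
  · intro h
    refine ⟨rho g⁻¹ v, h, ?_⟩
    rw [← Module.End.mul_apply, ← map_mul, mul_inv_cancel, map_one, Module.End.one_apply]

/-- The translate of a minimal submodule is minimal. -/
theorem tw_isAtom (rho : Representation k G V) (S : LieSubalgebra k (Module.End k V))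
    (hS : ∀ g, ∀ x ∈ S, rho g * x * rho g⁻¹ ∈ S) (g : G) (N : LieSubmodule k S V)
    (hN : IsAtom N) : IsAtom (tw rho S hS g N) := by
  have hcomp : ∀ (a : G) (P : LieSubmodule k S V), tw rho S hS a (tw rho S hS a⁻¹ P) = P := by
    intro a P
    ext v
    rw [mem_tw, mem_tw, inv_inv, ← Module.End.mul_apply, ← map_mul, mul_inv_cancel, map_one,
      Module.End.one_apply]
  have hmono : ∀ (a : G) (P Q : LieSubmodule k S V), P ≤ Q → tw rho S hS a P ≤ tw rho S hS a Q := by
    intro a P Q h v hv
    rw [mem_tw] at hv ⊢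
    exact h hv
  have hbot : ∀ a : G, tw rho S hS a ⊥ = ⊥ := by
    intro a
    rw [LieSubmodule.eq_bot_iff]
    intro v hv
    rw [mem_tw, LieSubmodule.mem_bot] at hv
    have : rho a (rho a⁻¹ v) = 0 := by rw [hv, map_zero]
    rwa [← Module.End.mul_apply, ← map_mul, mul_inv_cancel, map_one, Module.End.one_apply] at this
  refine ⟨fun h => hN.1 ?_, fun P hP => ?_⟩
  · have := hcomp g⁻¹ N
    rw [inv_inv, h, hbot] at this
    exact this.symm
  · have h1 : tw rho S hS g⁻¹ P < N := by
      have h2 := hmono g⁻¹ _ _ hP.le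
      have h3 := hcomp g⁻¹ N
      rw [inv_inv] at h3
      rw [h3] at h2
      refine lt_of_le_of_ne h2 fun h4 => hP.ne ?_
      rw [← h4, hcomp]
    have h5 := hN.2 _ h1
    rw [← hcomp g P, h5, hbot]

end main

section final

variable {k V : Type*} [Field k] [IsAlgClosed k] [CharZero k] [AddCommGroup V] [Module k V]
  [FiniteDimensional k V] {G : Type*} [Group G]

/-- A Lie algebra of endomorphisms which is stable under conjugation by an irreducible group and
contains an element of nonzero trace contains the identity. -/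
theorem one_mem (rho : Representation k G V)
    (hirr : ∀ W : Submodule k V, (∀ g, ∀ w ∈ W, rho g w ∈ W) → W = ⊥ ∨ W = ⊤)
    (S : LieSubalgebra k (Module.End k V)) (hS : ∀ g, ∀ x ∈ S, rho g * x * rho g⁻¹ ∈ S)
    (htr : ∃ x ∈ S, LinearMap.trace k V x ≠ 0) : (1 : Module.End k V) ∈ S := by
  classical
  obtain ⟨x0, hx0, htr0⟩ := htr
  have hnt : Nontrivial V := by
    by_contra h
    rw [not_nontrivial_iff_subsingleton] at h
    apply htr0
    have : x0 = 0 := by
      ext v
      exact Subsingleton.elim _ _
    rw [this, map_zero]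
  have hgg : ∀ (g : G) (v : V), rho g (rho g⁻¹ v) = v := fun g v => by
    rw [← Module.End.mul_apply, ← map_mul, mul_inv_cancel, map_one, Module.End.one_apply]
  have hgg' : ∀ (g : G) (v : V), rho g⁻¹ (rho g v) = v := fun g v => by
    rw [← Module.End.mul_apply, ← map_mul, inv_mul_cancel, map_one, Module.End.one_apply]
  -- a minimal submodule
  obtain ⟨W0, hW0, _⟩ : ∃ a : LieSubmodule k S V, IsAtom a ∧ a ≤ ⊤ :=
    (IsAtomic.eq_bot_or_exists_atom_le (⊤ : LieSubmodule k S V)).resolve_left (by
      intro h
      have := (LieSubmodule.eq_bot_iff _).mp h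
      obtain ⟨v, hv⟩ := exists_ne (0 : V)
      exact hv (this v (LieSubmodule.mem_top v)))
  obtain ⟨v0, hv0, hv00⟩ : ∃ v0 ∈ W0, v0 ≠ 0 := by
    by_contra hno
    push Not at hno
    exact hW0.1 ((LieSubmodule.eq_bot_iff _).mpr hno)
  -- the translates span
  have hspan : (⨆ g : G, ((tw rho S hS g W0 : LieSubmodule k S V) : Submodule k V)) = ⊤ := by
    refine (hirr _ ?_).resolve_left ?_
    · intro g w hw
      induction hw using Submodule.iSup_induction' with
      | mem h w hw =>
        refine Submodule.mem_iSup_of_mem (g * h) ?_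
        have hw' : rho h⁻¹ w ∈ W0 := (mem_tw rho S hS h W0 w).mp hw
        refine (mem_tw rho S hS (g * h) W0 _).mpr ?_
        rw [mul_inv_rev, map_mul, Module.End.mul_apply, hgg']
        exact hw'
      | zero => rw [map_zero]; exact Submodule.zero_mem _
      | add a b _ _ ha hb => rw [map_add]; exact Submodule.add_mem _ ha hb
    · intro h
      have h1 : v0 ∈ (⨆ g : G, ((tw rho S hS g W0 : LieSubmodule k S V) : Submodule k V)) := by
        refine Submodule.mem_iSup_of_mem 1 ?_
        refine (mem_tw rho S hS 1 W0 _).mpr ?_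
        rw [inv_one, map_one, Module.End.one_apply]
        exact hv0
      rw [h, Submodule.mem_bot] at h1
      exact hv00 h1
  obtain ⟨F, hF⟩ : ∃ F : Finset G,
      (⨆ g ∈ F, ((tw rho S hS g W0 : LieSubmodule k S V) : Submodule k V)) = ⊤ := by
    have hcomp : IsCompactElement (⊤ : Submodule k V) :=
      (Submodule.fg_iff_compact _).mp Module.Finite.fg_top
    obtain ⟨F, hF⟩ := CompleteLattice.IsCompactElement.exists_finset_of_le_iSup (Submodule k V) hcomp
      (fun g : G => ((tw rho S hS g W0 : LieSubmodule k S V) : Submodule k V)) hspan.ge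
    exact ⟨F, top_le_iff.mp hF⟩
  -- two endomorphisms which agree on the translates agree
  have hext : ∀ a b : Module.End k V, (∀ g ∈ F, ∀ w ∈ W0, a (rho g w) = b (rho g w)) → a = b := by
    intro a b hab
    have h1 : (⨆ g ∈ F, ((tw rho S hS g W0 : LieSubmodule k S V) : Submodule k V)) ≤
        LinearMap.ker (a - b) := by
      refine iSup₂_le fun g hg => ?_
      rintro _ ⟨w, hw, rfl⟩
      rw [LinearMap.mem_ker, LinearMap.sub_apply, hab g hg w hw, sub_self]
    rw [hF, top_le_iff, LinearMap.ker_eq_top, sub_eq_zero] at h1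
    exact h1
  -- the radical is central
  have hrad : LieAlgebra.radical k S ≤ LieAlgebra.center k S := by
    intro x hx
    rw [LieModule.mem_maxTrivSubmodule]
    intro y
    apply Subtype.ext
    show (y : Module.End k V) * (x : Module.End k V) - (x : Module.End k V) * y = 0
    rw [sub_eq_zero]
    refine hext _ _ fun g _ w hw => ?_
    have _i := irreducible_of_isAtom _ (tw_isAtom rho S hS g W0 hW0)
    obtain ⟨c, hc⟩ := radical_scalar k S (tw rho S hS g W0) x hx
    have hmem : rho g w ∈ tw rho S hS g W0 := (mem_tw rho S hS g W0 _).mpr (by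
      rw [hgg']; exact hw)
    have h1 : (x : Module.End k V) (rho g w) = c • rho g w :=
      congrArg Subtype.val (hc ⟨rho g w, hmem⟩)
    have hmem2 : (y : Module.End k V) (rho g w) ∈ tw rho S hS g W0 :=
      (tw rho S hS g W0).lie_mem (x := y) hmem
    have h2 : (x : Module.End k V) ((y : Module.End k V) (rho g w)) =
        c • (y : Module.End k V) (rho g w) :=
      congrArg Subtype.val (hc ⟨_, hmem2⟩)
    rw [Module.End.mul_apply, Module.End.mul_apply, h1, h2, map_smul]
  -- a central element with nonzero trace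
  obtain ⟨z, hzc, hztr⟩ : ∃ z ∈ LieAlgebra.center k S,
      LinearMap.trace k V (z : Module.End k V) ≠ 0 := by
    refine exists_center k S hrad ((LinearMap.trace k V) ∘ₗ S.toSubmodule.subtype) ?_ ?_
    · intro a b
      show LinearMap.trace k V ((a : Module.End k V) * b - b * a) = 0
      rw [map_sub, LinearMap.trace_mul_comm, sub_self]
    · intro h
      exact htr0 (LinearMap.congr_fun h ⟨x0, hx0⟩)
  -- the commuting elements
  have hzcomm : ∀ y ∈ S, y * (z : Module.End k V) = (z : Module.End k V) * y := by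
    intro y hy
    have h1 := (LieModule.mem_maxTrivSubmodule k S S z).mp hzc ⟨y, hy⟩
    have h2 : y * (z : Module.End k V) - (z : Module.End k V) * y = 0 := congrArg Subtype.val h1
    exact sub_eq_zero.mp h2
  -- conjugates of z
  let cj : G → Module.End k V := fun g => rho g * (z : Module.End k V) * rho g⁻¹
  have hcjS : ∀ g, cj g ∈ S := fun g => hS g _ z.2
  have hcjcomm : ∀ g, ∀ y ∈ S, y * cj g = cj g * y := by
    intro g y hy
    have h1 := hzcomm _ (hS g⁻¹ y hy)
    rw [inv_inv] at h1
    have e1 : rho g * rho g⁻¹ = 1 := by rw [← map_mul, mul_inv_cancel, map_one]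
    have e2 : rho g⁻¹ * rho g = 1 := by rw [← map_mul, inv_mul_cancel, map_one]
    calc y * (rho g * (z : Module.End k V) * rho g⁻¹)
        = rho g * (rho g⁻¹ * y * rho g * (z : Module.End k V)) * rho g⁻¹ := by
          simp only [← mul_assoc]
          rw [e1, one_mul]
      _ = rho g * ((z : Module.End k V) * (rho g⁻¹ * y * rho g)) * rho g⁻¹ := by rw [h1]
      _ = rho g * (z : Module.End k V) * rho g⁻¹ * y := by
          simp only [mul_assoc]
          rw [e1, mul_one]
  -- each conjugate acts as a scalar on each translate of W0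
  have hsc : ∀ g h : G, ∃ c : k, ∀ w ∈ W0, cj g (rho h w) = c • rho h w := by
    intro g h
    have hrd : (⟨cj g, hcjS g⟩ : S) ∈ LieAlgebra.radical k S := by
      apply LieAlgebra.center_le_radical k S
      rw [LieModule.mem_maxTrivSubmodule]
      intro y
      apply Subtype.ext
      show (y : Module.End k V) * cj g - cj g * y = 0
      rw [hcjcomm g y y.2, sub_self]
    have _i := irreducible_of_isAtom _ (tw_isAtom rho S hS h W0 hW0)
    obtain ⟨c, hc⟩ := radical_scalar k S (tw rho S hS h W0) _ hrd
    refine ⟨c, fun w hw => ?_⟩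
    have hmem : rho h w ∈ tw rho S hS h W0 := (mem_tw rho S hS h W0 _).mpr (by
      rw [hgg']; exact hw)
    exact congrArg Subtype.val (hc ⟨rho h w, hmem⟩)
  choose cc hcc using hsc
  -- the scalars are eigenvalues of z
  have hcjap : ∀ (g : G) (v : V), cj g v = rho g ((z : Module.End k V) (rho g⁻¹ v)) :=
    fun g v => rfl
  have heig : ∀ g h : G, (z : Module.End k V).HasEigenvalue (cc g h) := by
    intro g h
    have h1 := hcc g h v0 hv0
    rw [hcjap] at h1
    have h2 : (z : Module.End k V) (rho g⁻¹ (rho h v0)) = cc g h • rho g⁻¹ (rho h v0) := by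
      rw [← hgg' g ((z : Module.End k V) (rho g⁻¹ (rho h v0))), h1, map_smul]
    refine Module.End.hasEigenvalue_of_hasEigenvector (x := rho g⁻¹ (rho h v0)) ⟨?_, ?_⟩
    · exact Module.End.mem_eigenspace_iff.mpr h2
    · intro h3
      apply hv00
      rw [← hgg' h v0, ← hgg g (rho h v0), h3, map_zero, map_zero]
  -- the orbit of z is finite
  have hfin : (Set.range cj).Finite := by
    have hE : (Set.univ.pi fun _ : F => {μ | (z : Module.End k V).HasEigenvalue μ}).Finite :=
      Set.Finite.pi fun _ => Module.End.finite_hasEigenvalue _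
    refine Set.Finite.of_finite_image (f := fun x : Module.End k V => fun f : F =>
      (if hx : ∃ g, cj g = x then cc hx.choose f else 0)) (hE.subset ?_) ?_
    · rintro _ ⟨_, ⟨g, rfl⟩, rfl⟩
      intro f _
      have hx : ∃ g', cj g' = cj g := ⟨g, rfl⟩
      show (if hx : ∃ g', cj g' = cj g then cc hx.choose f else 0) ∈ _
      rw [dif_pos hx]
      exact heig _ _
    · rintro _ ⟨g, rfl⟩ _ ⟨g', rfl⟩ hgg2
      have hx : ∃ a, cj a = cj g := ⟨g, rfl⟩
      have hx' : ∃ a, cj a = cj g' := ⟨g', rfl⟩
      refine hext _ _ fun f hf w hw => ?_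
      have h1 := congrFun hgg2 ⟨f, hf⟩
      simp only [dif_pos hx, dif_pos hx'] at h1
      rw [← hx.choose_spec, ← hx'.choose_spec, hcc _ _ w hw, hcc _ _ w hw, h1]
  -- the average
  let O : Finset (Module.End k V) := hfin.toFinset
  have hO : ∀ x, x ∈ O ↔ ∃ g, cj g = x := fun x => by
    rw [Set.Finite.mem_toFinset, Set.mem_range]
  let zb : Module.End k V := ∑ x ∈ O, x
  have hzbS : zb ∈ S := by
    refine S.toSubmodule.sum_mem fun x hx => ?_
    obtain ⟨g, rfl⟩ := (hO x).mp hx
    exact hcjS g
  have hcjmul : ∀ a g : G, rho a * cj g * rho a⁻¹ = cj (a * g) := by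
    intro a g
    show rho a * (rho g * (z : Module.End k V) * rho g⁻¹) * rho a⁻¹ =
      rho (a * g) * (z : Module.End k V) * rho (a * g)⁻¹
    rw [mul_inv_rev, map_mul, map_mul]
    simp only [mul_assoc]
  have hinv : ∀ a : G, rho a * zb * rho a⁻¹ = zb := by
    intro a
    show rho a * (∑ x ∈ O, x) * rho a⁻¹ = ∑ x ∈ O, x
    rw [Finset.mul_sum, Finset.sum_mul]
    refine Finset.sum_bij' (fun x _ => rho a * x * rho a⁻¹) (fun x _ => rho a⁻¹ * x * rho a)
      ?_ ?_ ?_ ?_ ?_
    · intro x hx
      obtain ⟨g, rfl⟩ := (hO x).mp hx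
      exact (hO _).mpr ⟨a * g, (hcjmul a g).symm⟩
    · intro x hx
      obtain ⟨g, rfl⟩ := (hO x).mp hx
      refine (hO _).mpr ⟨a⁻¹ * g, ?_⟩
      rw [← hcjmul a⁻¹ g, inv_inv]
    · intro x _
      have e2 : rho a⁻¹ * rho a = 1 := by rw [← map_mul, inv_mul_cancel, map_one]
      calc rho a⁻¹ * (rho a * x * rho a⁻¹) * rho a
          = (rho a⁻¹ * rho a) * x * (rho a⁻¹ * rho a) := by simp only [mul_assoc]
        _ = x := by rw [e2, one_mul, mul_one]
    · intro x _
      have e1 : rho a * rho a⁻¹ = 1 := by rw [← map_mul, mul_inv_cancel, map_one]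
      calc rho a * (rho a⁻¹ * x * rho a) * rho a⁻¹
          = (rho a * rho a⁻¹) * x * (rho a * rho a⁻¹) := by simp only [mul_assoc]
        _ = x := by rw [e1, one_mul, mul_one]
    · intro x _
      rfl
  have hcomm : ∀ (a : G) (v : V), zb (rho a v) = rho a (zb v) := by
    intro a v
    have h1 := LinearMap.congr_fun (hinv a) (rho a v)
    rw [← h1]
    show rho a (zb (rho a⁻¹ (rho a v))) = rho a (zb v)
    rw [hgg']
  -- Schur
  obtain ⟨s, hs⟩ := Module.End.exists_eigenvalue zb
  have htop : Module.End.eigenspace zb s = ⊤ := by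
    refine (hirr _ ?_).resolve_left hs
    intro g w hw
    rw [Module.End.mem_eigenspace_iff] at hw ⊢
    rw [hcomm, hw, map_smul]
  have hzbs : zb = s • (1 : Module.End k V) := by
    ext v
    have : v ∈ Module.End.eigenspace zb s := by rw [htop]; exact Submodule.mem_top
    rw [Module.End.mem_eigenspace_iff] at this
    rw [this]
    rfl
  have htrz : LinearMap.trace k V zb = (O.card : k) * LinearMap.trace k V (z : Module.End k V) := by
    show LinearMap.trace k V (∑ x ∈ O, x) = _
    rw [map_sum, Finset.sum_congr rfl (g := fun _ => LinearMap.trace k V (z : Module.End k V)),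
      Finset.sum_const, nsmul_eq_mul]
    intro x hx
    obtain ⟨g, rfl⟩ := (hO x).mp hx
    show LinearMap.trace k V (rho g * (z : Module.End k V) * rho g⁻¹) = _
    rw [LinearMap.trace_mul_comm, ← mul_assoc, ← map_mul, inv_mul_cancel, map_one, one_mul]
  have hs0 : s ≠ 0 := by
    intro h0
    rw [hzbs, h0, zero_smul, map_zero] at htrz
    rcases mul_eq_zero.mp htrz.symm with h | h
    · have hne : O.card ≠ 0 := Finset.card_ne_zero_of_mem ((hO (cj 1)).mpr ⟨1, rfl⟩)
      exact hne (Nat.cast_eq_zero.mp h)
    · exact hztr h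
  have : (1 : Module.End k V) = s⁻¹ • zb := by
    rw [hzbs, smul_smul, inv_mul_cancel₀ hs0, one_smul]
  rw [this]
  exact S.smul_mem _ hzbS

end final

end Pool.Agent.TB
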