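import Mathlib

/-!
# Irreducible Lie algebras with nonzero trace contain scalars
-/

set_option autoImplicit false

namespace Pool.Agent.TB

open Module LieModule

attribute [local instance 100] LieRing.ofAssociativeRing

section faithful

variable (K L W : Type*) [Field K] [CharZero K] [LieRing L] [LieAlgebra K L]
  [AddCommGroup W] [Module K W] [LieRingModule L W] [LieModule K L W]

/-- On a Killing Lie algebra every linear form which vanishes on brackets is zero. -/
theorem form_eq_zero [FiniteDimensional K L] [LieAlgebra.IsKilling K L] (f : L →ₗ[K] K)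
    (hf : ∀ x y : L, f ⁅x, y⁆ = 0) : f = 0 := by
  have hnd : (killingForm K L).Nondegenerate := LieAlgebra.IsKilling.killingForm_nondegenerate K L
  obtain ⟨z, hz⟩ : ∃ z : L, killingForm K L z = f := by
    have hinj : Function.Injective (killingForm K L) := by
      intro a b hab
      have h1 : ∀ y, killingForm K L (a - b) y = 0 := fun y => by
        rw [map_sub, LinearMap.sub_apply, hab, sub_self]
      have := hnd.1 (a - b) h1
      exact sub_eq_zero.mp this
    have hsurj : Function.Surjective (killingForm K L) :=
      (LinearMap.injective_iff_surjective_of_finrank_eq_finrank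
        (by rw [Subspace.dual_finrank_eq])).mp hinj
    exact hsurj f
  have hz0 : z = 0 := by
    have hc : ∀ x : L, ⁅z, x⁆ = 0 := by
      intro x
      refine hnd.1 _ fun y => ?_
      have h2 : killingForm K L ⁅z, x⁆ y = killingForm K L z ⁅x, y⁆ :=
        LieModule.traceForm_apply_lie_apply K L L z x y
      rw [h2, hz, hf]
    have hzc : z ∈ LieAlgebra.center K L := by
      rw [LieModule.mem_maxTrivSubmodule]
      intro x
      rw [← lie_skew, hc x, neg_zero]
    have hc0 : LieAlgebra.center K L = ⊥ := LieAlgebra.center_eq_bot K L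
    rw [hc0] at hzc
    exact (LieSubmodule.mem_bot z).mp hzc
  rw [← hz, hz0, map_zero]

theorem exists_scalar_aux [FiniteDimensional K L] [FiniteDimensional K W] [IsAlgClosed K]
    [IsIrreducible K L W] [IsFaithful K L W]
    (x : L) (hx : LinearMap.trace K W (toEnd K L W x) ≠ 0) :
    ∃ z : L, ∃ c : K, c ≠ 0 ∧ ∀ w : W, ⁅z, w⁆ = c • w := by
  by_contra hno
  push Not at hno
  obtain ⟨hcr, hcs⟩ := LieAlgebra.hasCentralRadical_and_of_isIrreducible_of_isFaithful K L W
  have hc0 : LieAlgebra.center K L = ⊥ := by
    rw [LieSubmodule.eq_bot_iff]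
    intro z hz
    obtain ⟨t, ht⟩ := Submodule.mem_span_singleton.mp ((hcs z).mp hz)
    have hact : ∀ w : W, ⁅z, w⁆ = t • w := fun w => by
      have := LinearMap.congr_fun ht w
      simpa using this.symm
    by_cases ht0 : t = 0
    · have h0 : toEnd K L W z = 0 := by rw [← ht, ht0, zero_smul]
      exact (LieModule.toEnd_eq_zero_iff (R := K) (L := L) (M := W)).mp h0
    · obtain ⟨w, hw⟩ := hno z t ht0
      exact absurd (hact w) hw
  have hr0 : LieAlgebra.radical K L = ⊥ := by
    rw [(LieAlgebra.hasCentralRadical_iff K L).mp hcr, hc0]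
  have : LieAlgebra.HasTrivialRadical K L := ⟨hr0⟩
  have : LieAlgebra.IsKilling K L := inferInstance
  have hf := form_eq_zero K L ((LinearMap.trace K W) ∘ₗ (toEnd K L W : L →ₗ[K] End K W)) (by
    intro a b
    show LinearMap.trace K W (toEnd K L W ⁅a, b⁆) = 0
    rw [LieHom.map_lie, LinearMap.trace_lie])
  exact hx (LinearMap.congr_fun hf x)

end faithful

section general

variable (K L W : Type*) [Field K] [CharZero K] [IsAlgClosed K] [LieRing L] [LieAlgebra K L]
  [AddCommGroup W] [Module K W] [LieRingModule L W] [LieModule K L W]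

/-- (B1) If an irreducible finite dimensional module over a Lie algebra has an element of nonzero
trace then some element acts as a nonzero scalar. -/
theorem exists_scalar [FiniteDimensional K W] [IsIrreducible K L W]
    (x : L) (hx : LinearMap.trace K W (toEnd K L W x) ≠ 0) :
    ∃ z : L, ∃ c : K, c ≠ 0 ∧ ∀ w : W, ⁅z, w⁆ = c • w := by
  let L' := (toEnd K L W).range
  have hirr : IsIrreducible K L' W := by
    have hnt : Nontrivial W := nontrivial_of_isIrreducible K L W
    refine LieModule.IsIrreducible.mk fun N hN => ?_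
    let N' : LieSubmodule K L W :=
      { (N : Submodule K W) with
        lie_mem := fun {y w} hw => N.lie_mem (x := (⟨toEnd K L W y, ⟨y, rfl⟩⟩ : L')) hw }
    have h1 : N' ≠ ⊥ := by
      intro h
      apply hN
      rw [LieSubmodule.eq_bot_iff] at h ⊢
      exact h
    have hN' : Nontrivial N' := (LieSubmodule.nontrivial_iff_ne_bot K L W).mpr h1
    have h2 : N' = ⊤ := LieSubmodule.eq_top_of_isIrreducible K L W N'
    refine eq_top_iff.mpr fun w _ => ?_
    have : w ∈ N' := by rw [h2]; exact LieSubmodule.mem_top w
    exact this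
  have hfaith : IsFaithful K L' W := by
    infer_instance
  obtain ⟨z, c, hc, hz⟩ := exists_scalar_aux K L' W ⟨toEnd K L W x, ⟨x, rfl⟩⟩ hx
  obtain ⟨y, hy⟩ := z.2
  refine ⟨y, c, hc, fun w => ?_⟩
  rw [← hz w]
  show toEnd K L W y w = (z : End K W) w
  rw [← hy]
  rfl

end general

end Pool.Agent.TB
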