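import Pool.Agent.Lib_helper9.TB.B1

/-!
# Lie algebras of endomorphisms which are stable under an irreducible group of automorphisms
-/

set_option autoImplicit false

namespace Pool.Agent.TB

open Module LieModule Polynomial

attribute [local instance 100] LieRing.ofAssociativeRing

section line

variable {K W : Type*} [Field K] [AddCommGroup W] [Module K W] [FiniteDimensional K W]

/-- The determinant along a line is a polynomial. -/
theorem line_poly (A B : W →ₗ[K] W) :
    ∃ P : K[X], ∀ t : K, P.eval t = LinearMap.det (A + t • (B - A)) := by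
  classical
  let b := finBasis K W
  let MA := LinearMap.toMatrix b b A
  let MB := LinearMap.toMatrix b b B
  refine ⟨(MA.map C + (X : K[X]) • (MB - MA).map C).det, fun t => ?_⟩
  have h1 : (Polynomial.evalRingHom t) (MA.map C + (X : K[X]) • (MB - MA).map C).det =
      ((Polynomial.evalRingHom t).mapMatrix (MA.map C + (X : K[X]) • (MB - MA).map C)).det :=
    RingHom.map_det _ _
  rw [Polynomial.coe_evalRingHom] at h1
  rw [h1, ← LinearMap.det_toMatrix b]
  congr 1
  ext i j
  simp only [RingHom.mapMatrix_apply, Matrix.map_apply, Matrix.add_apply, Matrix.smul_apply,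
    Matrix.sub_apply, smul_eq_mul, Polynomial.coe_evalRingHom, Polynomial.eval_add,
    Polynomial.eval_mul, Polynomial.eval_X, Polynomial.eval_C, map_add, map_smul, map_sub,
    Polynomial.eval_sub]
  rfl

end line

section generic

variable {K V : Type*} [Field K] [Infinite K] [AddCommGroup V] [Module K V]
  [FiniteDimensional K V]

theorem det_restrict_line (N : Submodule K V) {X Y : V →ₗ[K] V} (hX : ∀ v ∈ N, X v ∈ N)
    (hY : ∀ v ∈ N, Y v ∈ N) : ∃ P : K[X], ∀ t : K,
      ∀ h : ∀ v ∈ N, (X + t • (Y - X)) v ∈ N,
        P.eval t = LinearMap.det ((X + t • (Y - X)).restrict h) := by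
  obtain ⟨P, hP⟩ := line_poly (X.restrict hX) (Y.restrict hY)
  refine ⟨P, fun t h => ?_⟩
  rw [hP t]
  congr 1

/-- A linear space of endomorphisms which contains for each `N i` of a finite family of stable
subspaces an element with nonzero determinant on `N i` contains an element with nonzero
determinants on all of them. -/
theorem exists_generic (S : Submodule K (V →ₗ[K] V)) {ι : Type*} (N : ι → Submodule K V)
    (hS : ∀ X ∈ S, ∀ i, ∀ v ∈ N i, X v ∈ N i) (F : Finset ι)
    (h : ∀ i ∈ F, ∃ X, ∃ hX : X ∈ S, LinearMap.det (X.restrict (hS X hX i)) ≠ 0) :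
    ∃ X, ∃ hX : X ∈ S, ∀ i ∈ F, LinearMap.det (X.restrict (hS X hX i)) ≠ 0 := by
  classical
  induction F using Finset.induction_on with
  | empty => exact ⟨0, S.zero_mem, fun i hi => absurd hi (Finset.notMem_empty i)⟩
  | insert a F ha ih =>
    obtain ⟨X, hX, hXF⟩ := ih fun i hi => h i (Finset.mem_insert_of_mem hi)
    obtain ⟨Y, hY, hYa⟩ := h a (Finset.mem_insert_self a F)
    have hmem : ∀ t : K, X + t • (Y - X) ∈ S := fun t =>
      S.add_mem hX (S.smul_mem t (S.sub_mem hY hX))
    choose P hP using fun i => det_restrict_line (N i) (hS X hX i) (hS Y hY i)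
    have hne : ∀ i ∈ insert a F, P i ≠ 0 := by
      intro i hi h0
      rcases Finset.mem_insert.mp hi with rfl | hi
      · apply hYa
        have h1 := hP i 1 (hS _ (hmem 1) i)
        rw [h0, eval_zero] at h1
        rw [h1]
        congr 1
        ext v
        simp
      · apply hXF i hi
        have h1 := hP i 0 (hS _ (hmem 0) i)
        rw [h0, eval_zero] at h1
        rw [h1]
        congr 1
        ext v
        simp
    have hprod : (∏ i ∈ insert a F, P i) ≠ 0 := Finset.prod_ne_zero_iff.mpr hne
    obtain ⟨t, ht⟩ : ∃ t : K, (∏ i ∈ insert a F, P i).eval t ≠ 0 := by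
      by_contra hno
      push Not at hno
      exact hprod (Polynomial.funext fun t => by rw [hno t, eval_zero])
    rw [eval_prod] at ht
    refine ⟨X + t • (Y - X), hmem t, fun i hi => ?_⟩
    rw [← hP i t (hS _ (hmem t) i)]
    exact Finset.prod_ne_zero_iff.mp ht i hi

end generic

end Pool.Agent.TB
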