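import Pool.Agent.Lib_helper9.TB.B2

/-!
# Radicals and centers
-/

set_option autoImplicit false

namespace Pool.Agent.TB

open Module LieModule Polynomial

attribute [local instance 100] LieRing.ofAssociativeRing

/-- In an irreducible module over an algebraically closed field of characteristic zero the radical
acts by scalars. -/
theorem radical_scalar (k L W : Type*) [Field k] [CharZero k] [IsAlgClosed k]
    [LieRing L] [LieAlgebra k L] [FiniteDimensional k L]
    [AddCommGroup W] [Module k W] [LieRingModule L W] [LieModule k L W] [FiniteDimensional k W]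
    [IsIrreducible k L W] (x : L) (hx : x ∈ LieAlgebra.radical k L) :
    ∃ c : k, ∀ w : W, ⁅x, w⁆ = c • w := by
  have _i := nontrivial_of_isIrreducible k L W
  obtain ⟨χ, hχ⟩ : ∃ χ : Module.Dual k (LieAlgebra.radical k L), Nontrivial (weightSpace W χ) :=
    exists_nontrivial_weightSpace_of_isSolvable k (LieAlgebra.radical k L) W
  let N : LieSubmodule k L W := weightSpaceOfIsLieTower k W χ
  replace hχ : Nontrivial N := hχ
  replace hχ : N = ⊤ := N.eq_top_of_isIrreducible k L W
  refine ⟨χ ⟨x, hx⟩, fun m => ?_⟩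
  have hm : ∀ (y : L) (hy : y ∈ LieAlgebra.radical k L), ⁅y, m⁆ = χ ⟨y, hy⟩ • m := by
    simpa [N, weightSpaceOfIsLieTower, mem_weightSpace] using
      (hχ ▸ LieSubmodule.mem_top m : m ∈ N)
  exact hm x hx

/-- If the radical is the center then a nonzero linear form which vanishes on all brackets does not
vanish on the center. -/
theorem exists_center (k L : Type*) [Field k] [CharZero k] [LieRing L] [LieAlgebra k L]
    [FiniteDimensional k L] (hr : LieAlgebra.radical k L ≤ LieAlgebra.center k L)
    (f : L →ₗ[k] k) (hf : ∀ x y : L, f ⁅x, y⁆ = 0) (hf0 : f ≠ 0) :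
    ∃ z ∈ LieAlgebra.center k L, f z ≠ 0 := by
  by_contra hno
  push Not at hno
  apply hf0
  have hker : ∀ x : L, (∀ y, killingForm k L x y = 0) → x ∈ LieAlgebra.center k L := by
    intro x hx
    apply hr
    apply LieAlgebra.killingCompl_top_le_radical k L
    rw [LieIdeal.mem_killingCompl]
    intro y _
    rw [LieModule.traceForm_comm]
    exact hx y
  have hmem : f ∈ (LinearMap.ker (killingForm k L)).dualAnnihilator := by
    rw [Submodule.mem_dualAnnihilator]
    intro x hx
    refine hno x (hker x fun y => ?_)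
    rw [LinearMap.mem_ker.mp hx]
    rfl
  rw [← LinearMap.range_dualMap_eq_dualAnnihilator_ker] at hmem
  obtain ⟨φ, hφ⟩ := hmem
  obtain ⟨z, rfl⟩ := (Module.evalEquiv k L).surjective φ
  have hz : ∀ x, f x = killingForm k L z x := fun x => by
    rw [← hφ, LieModule.traceForm_comm]
    rfl
  have hzc : ∀ x : L, ⁅z, x⁆ ∈ LieAlgebra.center k L := by
    intro x
    refine hker _ fun y => ?_
    have h2 : killingForm k L ⁅z, x⁆ y = killingForm k L z ⁅x, y⁆ :=
      LieModule.traceForm_apply_lie_apply k L L z x y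
    rw [h2, ← hz, hf]
  ext y
  rw [hz y, LieModule.traceForm_apply_apply]
  have hnil : IsNilpotent (toEnd k L L z ∘ₗ toEnd k L L y) := by
    refine ⟨2, ?_⟩
    ext x
    have h1 : ⁅y, ⁅z, ⁅y, x⁆⁆⁆ = 0 := by
      have := (LieModule.mem_maxTrivSubmodule k L L _).mp (hzc ⁅y, x⁆) y
      exact this
    rw [pow_two]
    show ⁅z, ⁅y, ⁅z, ⁅y, x⁆⁆⁆⁆ = 0
    rw [h1, lie_zero]
  have := LinearMap.isNilpotent_trace_of_isNilpotent hnil
  rw [this.eq_zero]
  rfl

end Pool.Agent.TB
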